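import Mathlib
import Pool.Agent.Q10.ETC3.Main

set_option autoImplicit false

/-! # MP_d26ff6_al: value groups of finite quaternionic structures and group extensions

`V(a)` denotes the group of the `b` with `q(a,b) = 0`.

If `|V(a)| ^ 3 < |G|` for all `a ≠ 1`, then the structure is a group extension. If there is an
`x ≠ 1, -1` with a small value group then exponent two is enough (which is best possible).

Idea of the proof. Call `x` rigid if `x ≠ 1, -1` and `V(x) = {1,-x}`, and birigid if `x` and `-x`
are rigid. The birigid elements are the elements outside a subgroup, and a structure with a birigid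
element is a group extension. Let `N` be the maximum of `|V(a)|`, `a ≠ 1`.

1. Suppose there are no rigid elements, and let `|V(v)| = N`. For a coset `C = u V(v)` let `D` be
   the union of the groups `V(x)`, `x` a slot of `q(v,u)`. It is a subgroup, and the images of the
   `N` groups `V(c)`, `c ∈ C`, in `D / V(v)` cover this group. If `k` is the minimum of the orders
   `|V(c)|`, then `D / V(v)` has at most `k ^ 2 / 2` elements. So by the inequality of Cauchy and
   Schwarz the images overlap, except for few cosets. An overlap of `V(c)` and `V(c w)` gives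
   `c w ∈ V(z) V(z w)` for some `z ∈ V(v)`, and this product has at most `N ^ 2 / 2` elements.
   Counting gives `|G| < 2 N ^ 3`, so `|G| ≤ N ^ 3`.
2. If there are no rigid elements and `|V(x)| = n`, then one overlap for every coset of `V(x)`
   follows from divisibility by four, and this gives `4 |G| < n ^ 3 N ^ 2`.
3. If `x` is rigid then for all but few `y` one of `y` and `-xy` is rigid. So if there is no
   birigid element, then the rigid elements are nearly a coset of a subgroup of index two (not
   containing `-1`), and this is impossible if `|G| > 8 N ^ 2`.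
-/

namespace Pool.Agent.Results.MP_d26ff6_al.CubicBound

open Pool.Agent.H315R3.ETC Pool.Agent.Y920.ETC Pool.Agent.Q10.ETC3

/-- the order of the value group `V(a)` -/
noncomputable def vsize (S : QData) (a : S.G) : ℕ := {b : S.G | S.q a b = S.zero}.ncard

/-- `S` is isomorphic to the group extension of a quaternionic structure -/
def IsExtension (S : QData) : Prop :=
  ∃ T : QData, IsQuat T ∧ 2 * Nat.card T.G = Nat.card S.G ∧ Iso (ext T) S

theorem result :
    -- exponent three
    (∀ S : QData, IsQuat S → Finite S.G → 2 < Nat.card S.G →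
      (∀ a : S.G, a ≠ 1 → vsize S a ^ 3 < Nat.card S.G) → IsExtension S) ∧
    -- exponent two for structures with a small value group
    (∀ S : QData, IsQuat S → Finite S.G → ∀ x : S.G, x ≠ 1 → x ≠ S.neg →
      (∀ a : S.G, a ≠ 1 → 8 * vsize S a ^ 2 < Nat.card S.G ∧
        vsize S x ^ 3 * vsize S a ^ 2 ≤ 4 * Nat.card S.G) → IsExtension S) ∧
    -- the elements which are not birigid form, with `-1`, a small subgroup
    (∀ S : QData, IsQuat S → Finite S.G → ∀ N : ℕ, 2 ≤ N →
      (∀ a : S.G, a ≠ 1 → vsize S a ≤ N) →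
      ∃ B : Subgroup S.G, Nat.card B ≤ N ^ 3 ∧ S.neg ∈ B ∧
        ∀ a : S.G, a ≠ 1 → a ≠ S.neg → (a ∉ B ↔
          ({b : S.G | S.q a b = S.zero} = {1, S.neg * a} ∧
            {b : S.G | S.q (S.neg * a) b = S.zero} = {1, a}))) ∧
    -- iterated group extensions of small structures
    (∀ S : QData, IsQuat S → Finite S.G → ∀ N : ℕ, 2 ≤ N →
      (∀ a : S.G, a ≠ 1 → vsize S a ≤ N) →
      ∃ (T : QData) (k : ℕ), IsQuat T ∧ Finite T.G ∧ Nat.card T.G ≤ N ^ 3 ∧
        2 ^ k * Nat.card T.G = Nat.card S.G ∧ (∀ a : T.G, a ≠ 1 → vsize T a ≤ N) ∧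
        Iso (ext^[k] T) S) ∧
    -- the conjecture for value groups of order at most `N`
    (∀ N : ℕ, 2 ≤ N →
      (∀ T : QData, IsQuat T → Finite T.G → Nat.card T.G ≤ N ^ 3 →
        (∀ a : T.G, a ≠ 1 → vsize T a ≤ N) → Elem T) →
      ∀ S : QData, IsQuat S → Finite S.G → (∀ a : S.G, a ≠ 1 → vsize S a ≤ N) → Elem S) ∧
    -- minimal counterexamples
    (∀ S : QData, IsQuat S → Finite S.G → ¬ Elem S →
      (∀ T : QData, IsQuat T → Finite T.G → Nat.card T.G < Nat.card S.G → Elem T) →
      ∃ a : S.G, a ≠ 1 ∧ Nat.card S.G ≤ vsize S a ^ 3 ∧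
        ∀ x : S.G, x ≠ 1 → x ≠ S.neg → Nat.card S.G ≤ 8 * vsize S a ^ 2 ∨
          4 * Nat.card S.G < vsize S x ^ 3 * vsize S a ^ 2) := by
  have hext : ∀ S : QData, IsQuat S → Finite S.G → (∃ b : S.G, Bi S b) → IsExtension S := by
    intro S h hf ⟨b, hb⟩
    obtain ⟨T, hT, -, hc, hi, -⟩ := bi_ext h hb
    exact ⟨T, hT, hc, hi⟩
  have hiter : ∀ S : QData, IsQuat S → Finite S.G → ∀ N : ℕ, 2 ≤ N →
      (∀ a : S.G, a ≠ 1 → vsize S a ≤ N) →
      ∃ (T : QData) (k : ℕ), IsQuat T ∧ Finite T.G ∧ Nat.card T.G ≤ N ^ 3 ∧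
        2 ^ k * Nat.card T.G = Nat.card S.G ∧ (∀ a : T.G, a ≠ 1 → vsize T a ≤ N) ∧
        Iso (ext^[k] T) S := by
    intro S h hf N hN1 hN
    exact iter3 hN1 _ S h hf le_rfl hN
  refine ⟨?_, ?_, ?_, hiter, ?_, ?_⟩
  · intro S h hf h1 hs
    exact hext S h hf (exists_bi3 h h1 hs)
  · intro S h hf x hx1 hxn hs
    exact hext S h hf (exists_bi_small h hx1 hxn (fun a ha => (hs a ha).1)
      (fun a ha => (hs a ha).2))
  · intro S h hf N hN1 hN
    obtain ⟨B, hB⟩ := Pool.Agent.Y67.ET.t_BASIC S h
    refine ⟨B, card_basic3 h B hB hN1 hN, (hB _).2 fun hb => hb.2.1 rfl, ?_⟩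
    intro a ha1 ha2
    rw [hB, not_not]
    constructor
    · rintro ⟨-, -, h3, h4⟩
      refine ⟨?_, ?_⟩
      · ext b
        constructor
        · intro hb
          exact h3 b hb
        · rintro (rfl | rfl)
          · exact q_one h a
          · exact h.qs1 a
      · ext b
        constructor
        · intro hb
          rcases h4 b hb with h5 | h5
          · exact Or.inl h5
          · right
            rw [neg_neg_mul h] at h5
            exact h5
        · rintro (rfl | rfl)
          · exact q_one h _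
          · show S.q (S.neg * b) b = S.zero
            rw [h.qs2]
            exact h.qs1 b
    · rintro ⟨h3, h4⟩
      refine ⟨ha1, ha2, ?_, ?_⟩
      · intro e he
        have : e ∈ ({1, S.neg * a} : Set S.G) := by rw [← h3]; exact he
        exact this
      · intro e he
        have : e ∈ ({1, a} : Set S.G) := by rw [← h4]; exact he
        rw [neg_neg_mul h]
        exact this
  · intro N hN1 hT S h hf hN
    obtain ⟨T, k, hTq, hTf, hTc, -, hTN, hTi⟩ := hiter S h hf N hN1 hN
    exact Elem.iso _ _ (elem_iterate (hT T hTq hTf hTc hTN) k) hTi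
  · intro S h hf hE hmin
    have h32 : 32 ≤ Nat.card S.G := by
      by_contra hc
      exact hE (elem_small h (by omega))
    have key : ¬ ∃ b : S.G, Bi S b := by
      rintro ⟨b, hb⟩
      obtain ⟨T, hT, hTf, hc, hi, -⟩ := bi_ext h hb
      exact hE (Elem.iso _ _ (Elem.ext _ (hmin T hT hTf (by omega))) hi)
    obtain ⟨v, hv1, hmax⟩ := exists_max h (by omega)
    refine ⟨v, hv1, ?_, ?_⟩
    · by_contra hcon
      push Not at hcon
      exact key (exists_bi3 h (by omega) fun a ha =>
        lt_of_le_of_lt (Nat.pow_le_pow_left (hmax a ha) 3) hcon)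
    · intro x hx1 hxn
      by_contra hcon
      push Not at hcon
      refine key (exists_bi_small h hx1 hxn (fun a ha => lt_of_le_of_lt
        (Nat.mul_le_mul_left _ (Nat.pow_le_pow_left (hmax a ha) 2)) hcon.1) (fun a ha => ?_))
      exact le_trans (Nat.mul_le_mul_left _ (Nat.pow_le_pow_left (hmax a ha) 2)) hcon.2

end Pool.Agent.Results.MP_d26ff6_al.CubicBound
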