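import Mathlib
import Pool.Agent.Q6.EV.Final2

set_option autoImplicit false

/-!
# Value groups of equal order (MP_d26ff6_al)

Let `S = (G, -1, q)` be a finite quaternionic structure, `V(a) = {x : q(a,x) = 0}` the value group of
`a ∈ G` and `R = {a : V(a) = G}` the radical. If all value groups different from `G` have the same
order, then `S` is of elementary type. More precisely, either `S` has at most two quaternions, or
every value group different from `G` has exactly `2 |R|` elements. There is no condition on the
order of `G`, on the number of quaternions or on `-1`. For example this applies if the automorphisms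
of `S` act transitively on the elements of `G` outside `R`.

Proof.  Modulo the radical we may assume `|V(a)| = v` for all `a ≠ 1`; let `|G| = N v`. Slots `a`, `b`
have `|V(ab)| / |V(a) ∩ V(b)|` common quaternions. Assume `v ≥ 4` and `N ≥ 4`.
1. The elements with the same quaternions as `a` form a group `E(a)` together with `1`, and counting
   gives `|E(a)| ≥ N v - (N - 1) (N - 2)`. This implies `N ≥ 2 v`.
2. For a quaternion `t ≠ 0` let `X` be the set of its slots, `c = |X|`, and let `D` be the union of
   the groups `V(x)`, `x ∈ X`. Then `D` is a subgroup of `G` (this is the group of the values of the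
   norm form of `t`; a direct proof from the axioms is given), so its order is a power of two. For
   `y ∈ G` let `n(y) = |X ∩ V(y)|`. Linkage gives `∑ n(y) = c v`, `∑ n(y) ^ 2 = c v ^ 2` and
   `n(1) = c ≤ v ^ 2 - v + 1`.
3. On the average over the quaternions with a given slot, `v ^ 2 - v + 1 - c` is at most
   `(v - 1) (v - 2) ^ 2 / (2 (N - 1))`. Take such a quaternion.
4. If `N ≥ v ^ 2`, the inequality of Cauchy and Schwarz gives `v ^ 3 / 2 < |D| < v ^ 3`. If
   `N ≤ v ^ 2 / 4`, it gives `|D| > |G|`. If `N = v ^ 2 / 2`, the inequality
   `∑ (n(y) - 1) (n(y) - 2) ≥ 0` over the elements `y ≠ 1` of `D` does not hold. So all cases are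
   impossible.
If `v ≤ 2` the criterion for elementary type of the starting file on value groups is satisfied, and
if `N ≤ 2` there are at most two quaternions.
-/

namespace Pool.Agent.Results.MP_d26ff6_al.EqualValueGroups

open Pool.Agent.H315R3.ETC

/-- **Finite quaternionic structures whose value groups have equal orders are of elementary
type.** -/
theorem result (S : QData) (hS : IsQuat S) (hfin : Finite S.G)
    (heq : ∀ a b : S.G, (∃ x, S.q a x ≠ S.zero) → (∃ x, S.q b x ≠ S.zero) →
      {x : S.G | S.q a x = S.zero}.ncard = {x : S.G | S.q b x = S.zero}.ncard) :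
    Elem S ∧
    ((∃ t : S.Q, ∀ a b : S.G, S.q a b = S.zero ∨ S.q a b = t) ∨
      ∀ a : S.G, (∃ x, S.q a x ≠ S.zero) →
        {x : S.G | S.q a x = S.zero}.ncard = 2 * {r : S.G | ∀ x, S.q r x = S.zero}.ncard) := by
  have hR : ∀ a : S.G, a ∉ Pool.Agent.Q6.EV.Rad hS ↔ ∃ x, S.q a x ≠ S.zero := by
    intro a
    rw [Pool.Agent.Q6.EV.mem_Rad]
    push Not
    exact Iff.rfl
  have hD : ∀ a : S.G, Nat.card (D hS a) = {x : S.G | S.q a x = S.zero}.ncard := fun a => rfl
  obtain ⟨h1, h2⟩ := Pool.Agent.Q6.EV.main hS hfin (by
    intro a b ha hb
    have e1 := (D hS a).card_mul_index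
    have e2 := (D hS b).card_mul_index
    rw [hD a, heq a b ((hR a).1 ha) ((hR b).1 hb), ← hD b, ← e2] at e1
    exact Nat.eq_of_mul_eq_mul_left Nat.card_pos e1)
  refine ⟨h1, ?_⟩
  rcases h2 with h2 | h2
  · exact Or.inl h2
  · refine Or.inr fun a ha => ?_
    exact h2 a ((hR a).2 ha)

end Pool.Agent.Results.MP_d26ff6_al.EqualValueGroups
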