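import Mathlib
import Pool.Agent.Q10.ETC3.Main
import Pool.Agent.Q10.ETC3.NoRigid4

set_option autoImplicit false

/-! # MP_d26ff6_al: value groups with at most four elements

`V(a)` denotes the group of the `b` with `q(a,b) = 0`. Finite quaternionic structures with
`|V(a)| ≤ 4` for all `a ≠ 1` are of elementary type.

Idea of the proof. It is enough to find a birigid element (`x ≠ 1, -1` with `V(x) = {1,-x}` and
`V(-x) = {1,x}`) if `|G| ≥ 32`.
1. If there is no rigid element (`x ≠ 1, -1` with `V(x) = {1,-x}`), let `v ≠ 1, -1`. A coset `C` of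
   `V(v)` is clean if the images of the groups `V(c)`, `c ∈ C`, in `G / V(v)` pairwise have only the
   trivial elements `1` and `-C` in common and if the groups `V(c)` meet `V(v)` trivially. Then the
   union of the images is a group with `2 + 4 * 2 = 10` elements, which is impossible. For a
   suitable `v` all but at most six cosets are clean.
2. Suppose that there is a rigid element but no birigid element. For rigid `x` all but at most eight
   `y` have the property that `y` or `-xy` is rigid, and all but at most three rigid `y` have the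
   property that `xy` is rigid. The rigid elements generate a subgroup of index two without `-1` and
   it has at most three elements which are not rigid; this leads to a contradiction.
-/

namespace Pool.Agent.Results.MP_d26ff6_al.FourElements

open Pool.Agent.H315R3.ETC Pool.Agent.Y920.ETC Pool.Agent.Q10.ETC3

/-- the order of the value group `V(a)` -/
noncomputable def vsize (S : QData) (a : S.G) : ℕ := {b : S.G | S.q a b = S.zero}.ncard

theorem result (S : QData) (hS : IsQuat S) (hfin : Finite S.G)
    (h4 : ∀ a : S.G, a ≠ 1 → vsize S a ≤ 4) :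
    Elem S ∧
    ∃ (T : QData) (k : ℕ), IsQuat T ∧ Finite T.G ∧ Nat.card T.G ≤ 16 ∧
      2 ^ k * Nat.card T.G = Nat.card S.G ∧ (∀ a : T.G, a ≠ 1 → vsize T a ≤ 4) ∧
      Iso (ext^[k] T) S := by
  have key : ∀ n : ℕ, ∀ S : QData, IsQuat S → Finite S.G → Nat.card S.G ≤ n →
      (∀ a : S.G, a ≠ 1 → vs S a ≤ 4) →
      ∃ (T : QData) (k : ℕ), IsQuat T ∧ Finite T.G ∧ Nat.card T.G ≤ 16 ∧
        2 ^ k * Nat.card T.G = Nat.card S.G ∧ (∀ a : T.G, a ≠ 1 → vs T a ≤ 4) ∧
        Iso (ext^[k] T) S := by
    intro n
    induction n with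
    | zero =>
      intro S h hf hc
      have : 0 < Nat.card S.G := Nat.card_pos
      omega
    | succ n ih =>
      intro S h hf hc hN
      by_cases hs : Nat.card S.G ≤ 16
      · exact ⟨S, 0, h, hf, hs, by simp, hN, iso_refl S⟩
      push Not at hs
      have hf' : Fintype S.G := Fintype.ofFinite _
      obtain ⟨m, hm⟩ := Pool.Agent.Y920.ETC.card_pow h
      have h32 := two_mul_le (a := 16) (m := 4) (by norm_num) hm hs
      obtain ⟨b, hb⟩ := Four.exists_bi4 h (fun a ha => by rw [← vs_eq]; exact hN a ha)
        (by rw [← Nat.card_eq_fintype_card]; omega)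
      obtain ⟨T, hT, hTf, hTc, hTi, hTN⟩ := bi_ext h hb
      have hTpos : 0 < Nat.card T.G := Nat.card_pos
      obtain ⟨R, k, hR, hRf, hRc, hRk, hRN, hRi⟩ := ih T hT hTf (by omega) (hTN 4 hN)
      refine ⟨R, k + 1, hR, hRf, hRc, ?_, hRN, ?_⟩
      · rw [pow_succ, mul_comm (2 ^ k) 2, mul_assoc, hRk, hTc]
      · rw [Function.iterate_succ_apply']
        exact iso_trans (iso_ext hRi) hTi
  obtain ⟨T, k, hT, hTf, hTc, hTk, hTN, hTi⟩ := key _ S hS hfin le_rfl h4
  refine ⟨?_, T, k, hT, hTf, hTc, hTk, hTN, hTi⟩
  exact Elem.iso _ _ (elem_iterate (elem_small hT (by omega)) k) hTi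

end Pool.Agent.Results.MP_d26ff6_al.FourElements
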