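import Pool.Agent.TH188.ET.Cor
import Pool.Agent.Q24.EQ.Core

/-!
# Structures with at most sixteen quaternions (MP_d26ff6_al)

Let `S = (G,-1,q)` be a finite quaternionic structure whose quaternions lie in a group of exponent
two in which `q` is additive, and let `V(a) = {x : q(a,x) = 0}`.  If `S` has at most sixteen
quaternions, then it is of elementary type.  The same holds if `V(b) V(ab)` has index at most two
in `G` for all `a`, `b` such that `V(a)` has index greater than four, and if any two of the groups
`Q_a = q(a,G)` generate a group with at most sixteen elements.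
-/

set_option autoImplicit false

namespace Pool.Agent.Results.MP_d26ff6_al.SixteenQuaternions

open Pool.Agent.H315R3.ETC Pool.Agent.Q24.EQ

universe v

/-- the value group `V(a) = {x : q(a,x) = 0}` -/
def V {S : QData} (hS : IsQuat S) (a : S.G) : Subgroup S.G where
  carrier := {x | S.q a x = S.zero}
  one_mem' := by
    have := (hS.qs3 a 1 1).1 rfl
    rwa [mul_one] at this
  mul_mem' := by
    intro x y hx hy
    exact (hS.qs3 a x y).1 (Eq.trans hx (Eq.symm hy))
  inv_mem' := by
    intro x hx
    have : x⁻¹ = x := inv_eq_of_mul_eq_one_left (hS.exp2 x)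
    rwa [this]

/-- `Q_a`: the subgroup of `B` generated by all `β(a,b)`, `b ∈ G` -/
def QGroup {G : Type} {B : Type v} [AddCommGroup B] (β : G → G → B) (a : G) : AddSubgroup B :=
  AddSubgroup.closure (Set.range (β a))

/-- **Structures with at most sixteen quaternions are of elementary type.** -/
theorem result (S : QData) (hS : IsQuat S) (hfin : Finite S.G)
    -- the quaternions lie in a group `B` of exponent two in which `q` is additive
    {B : Type v} [AddCommGroup B] (hB : ∀ b : B, b + b = 0) (β : S.G → S.G → B)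
    (hmul : ∀ a b c, β a (b * c) = β a b + β a c)
    (hq : ∀ a b c d, β a b = β c d ↔ S.q a b = S.q c d) :
    -- at most sixteen quaternions
    ({t : S.Q | ∃ a b : S.G, S.q a b = t}.ncard ≤ 16 → Elem S) ∧
    -- products of two value groups
    ((∀ a : S.G, 4 < (V hS a).index → ∀ b : S.G, (V hS b ⊔ V hS (a * b)).index ≤ 2) → Elem S) ∧
    -- sums of two groups of quaternions
    ((∀ a b : S.G, Nat.card (QGroup β a ⊔ QGroup β b : AddSubgroup B) ≤ 16) → Elem S) := by
  classical
  have hBS : BiSym β := ⟨hB, fun a b => (hq a b b a).2 (hS.qs2 a b), hmul⟩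
  have main : (∀ a, 4 < Nat.card (VV β a) → ∀ d, Almost (VV β a) (VV β d)) → Elem S := fun h =>
    Pool.Agent.TH188.ETV.elem_of_small S hS hfin hB β hmul hq
      fun x y z => small_of_almost hBS h x y z
  have b1 : ∀ p, β p 1 = 0 := hBS.one
  have q1 : ∀ p, S.q p 1 = S.zero := fun p => (V hS p).one_mem
  have hz : ∀ a b, β a b = 0 ↔ S.q a b = S.zero := fun a b => by rw [← b1 a, ← q1 a, hq]
  have hfr : (Set.range (fun x : S.G × S.G => β x.1 x.2)).Finite := Set.finite_range _
  have hfV : ∀ a, Finite (VV β a) := by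
    intro a
    have hsub : (VV β a : Set B) ⊆ Set.range (fun x : S.G × S.G => β x.1 x.2) := by
      intro t ht
      obtain ⟨b, hb⟩ := hBS.mem.1 ht
      exact ⟨(a, b), hb⟩
    exact (hfr.subset hsub).to_subtype
  refine ⟨?_, ?_, ?_⟩
  · intro hc
    refine main (almost_of_values hBS hfr ?_)
    refine le_trans ?_ hc
    have hfQ : {t : S.Q | ∃ a b : S.G, S.q a b = t}.Finite := by
      have : {t : S.Q | ∃ a b : S.G, S.q a b = t} =
          Set.range (fun x : S.G × S.G => S.q x.1 x.2) := by
        ext t
        constructor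
        · rintro ⟨a, b, h⟩
          exact ⟨(a, b), h⟩
        · rintro ⟨⟨a, b⟩, h⟩
          exact ⟨a, b, h⟩
      rw [this]
      exact Set.finite_range _
    refine Set.ncard_le_ncard_of_injOn
      (fun t => if h : ∃ x : S.G × S.G, β x.1 x.2 = t then S.q h.choose.1 h.choose.2 else S.zero)
      ?_ ?_ hfQ
    · rintro _ ⟨x, rfl⟩
      have h : ∃ y : S.G × S.G, β y.1 y.2 = β x.1 x.2 := ⟨x, rfl⟩
      simp only [dif_pos h]
      exact ⟨_, _, rfl⟩
    · rintro _ ⟨x, rfl⟩ _ ⟨y, rfl⟩ hxy
      have h : ∃ z : S.G × S.G, β z.1 z.2 = β x.1 x.2 := ⟨x, rfl⟩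
      have h' : ∃ z : S.G × S.G, β z.1 z.2 = β y.1 y.2 := ⟨y, rfl⟩
      simp only [dif_pos h, dif_pos h'] at hxy
      rw [← hq] at hxy
      exact h.choose_spec.symm.trans (hxy.trans h'.choose_spec)
  · intro h
    refine main ?_
    intro a ha d u hu v hv
    have hidx : (V hS a).index = Nat.card (VV β a) := by
      obtain ⟨f, hf1, -, hf3⟩ := Pool.Agent.TH188.ETV.card_Qs β hmul a
      have h1 : f.ker = Subgroup.toAddSubgroup (V hS a) := by
        ext b
        rw [AddMonoidHom.mem_ker]
        have : f b = β a b.toMul := hf1 b.toMul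
        rw [this, hz]
        exact Iff.rfl
      rw [h1] at hf3
      exact hf3
    rw [← hidx] at ha
    have hN := h a ha d
    obtain ⟨s, rfl⟩ := hBS.mem.1 hu
    obtain ⟨t, rfl⟩ := hBS.mem.1 hv
    have key : ∀ c ∈ V hS d ⊔ V hS (a * d), β d c ∈ VV β a := by
      intro c hc
      obtain ⟨v, hv, w, hw, rfl⟩ := Subgroup.mem_sup.1 hc
      have e1 : β d v = 0 := (hz d v).2 hv
      have e2 : β (a * d) w = 0 := (hz (a * d) w).2 hw
      rw [hBS.mul'] at e2
      have e3 : β d w = β a w := by
        have h4 := hB (β d w)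
        rw [← h4] at e2
        exact (add_right_cancel e2).symm
      rw [hmul, e1, zero_add, e3]
      exact hBS.val _ _
    have hne : (V hS d ⊔ V hS (a * d)).index ≠ 0 := Subgroup.index_ne_zero_of_finite
    have h12 : (V hS d ⊔ V hS (a * d)).index = 1 ∨ (V hS d ⊔ V hS (a * d)).index = 2 := by omega
    rcases h12 with h1 | h1
    · left
      apply key
      rw [Subgroup.index_eq_one] at h1
      rw [h1]
      exact Subgroup.mem_top _
    · by_cases hs : s ∈ V hS d ⊔ V hS (a * d)
      · exact Or.inl (key s hs)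
      by_cases ht : t ∈ V hS d ⊔ V hS (a * d)
      · exact Or.inr (Or.inl (key t ht))
      right; right
      rw [← hmul]
      apply key
      rw [Subgroup.mul_mem_iff_of_index_two h1]
      exact ⟨fun h => absurd h hs, fun h => absurd h ht⟩
  · intro h
    refine main (almost_of_pairs hBS ?_ h)
    intro a b
    have h1 := hfV a
    have h3 := hfV b
    exact finite_sup _ _

end Pool.Agent.Results.MP_d26ff6_al.SixteenQuaternions
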